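import Mathlib
import Pool.Agent.Q147.GQ.Count
import Pool.Agent.Q147.GQ.Norm
import Pool.Agent.Y926.TW.Dist

/-!
# Integral combinations related in bounded degree to a transcendental number
-/

set_option autoImplicit false

namespace Pool.Agent.Q146.MZ

open Module Pool.Agent.Q147.GQ

/-- The numbers `x` and `y` satisfy a nonzero polynomial relation of total degree at most `D` with
coefficients in `F`. -/
def Related (F : Type) [Field F] [Algebra F ℂ] (D : ℕ) (x y : ℂ) : Prop :=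
  ∃ P : MvPolynomial (Fin 2) F, P ≠ 0 ∧ P.totalDegree ≤ D ∧ MvPolynomial.aeval ![x, y] P = 0

/-- The numbers `x` and `y` satisfy a nonzero polynomial relation of total degree at most `D` over
some number field of degree at most `m`. -/
def RelatedOver (m D : ℕ) (x y : ℂ) : Prop :=
  ∃ F : IntermediateField ℚ ℂ, FiniteDimensional ℚ F ∧ finrank ℚ F ≤ m ∧ Related F D x y

theorem related_iff (D : ℕ) (x y : ℂ) :
    Related ℚ D x y ↔ RelQ (k := ℚ) (fun _ : Fin 1 => x) D y := by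
  have h1 : ∀ a b : ℂ, (Fin.cons a (fun _ : Fin 1 => b) : Fin 2 → ℂ) = ![a, b] := by
    intro a b
    funext i
    fin_cases i <;> rfl
  have h2 : ∀ a b : ℂ, Related ℚ D a b ↔ RelQ (k := ℚ) (fun _ : Fin 1 => b) D a := by
    intro a b
    rw [relQ_iff, h1]
    rfl
  rw [h2]
  exact ⟨fun h => h.symm', fun h => h.symm'⟩

theorem space {x : ℂ} (hx : Transcendental ℚ x) (D : ℕ) (V : Submodule ℚ ℂ)
    [FiniteDimensional ℚ V] :
    ∃ UU : Set (Submodule ℚ ℂ), UU.Finite ∧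
      (∀ y, (y ∈ V ∧ Related ℚ D x y) ↔ ∃ U ∈ UU, y ∈ U) ∧
      ∀ U ∈ UU, finrank ℚ (U ⊔ Submodule.span ℚ {1, x} : Submodule ℚ ℂ) ≤ 2 * D := by
  obtain ⟨UU, h1, h2, h3⟩ := structure_thm (k := ℚ) hx D V
  refine ⟨UU, h1, fun y => ?_, fun U hU => (h3 U hU).2.2⟩
  rw [related_iff]
  exact h2 y

/-- The odd integers `j` with `1 < j ≤ s`. -/
def odds (s : ℕ) : Finset ℕ := (Finset.Ioc 1 s).filter fun j => Odd j

/-- the dimension of the space generated by odd zeta values -/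
theorem dim_zeta {s t : ℕ} (h : 2 ^ (66 * t + 1) ≤ s) :
    t ≤ finrank ℚ (Submodule.span ℚ
      (Set.range fun j : odds s => (((∑' n : ℕ, 1 / ((n : ℝ) + 1) ^ (j : ℕ)) : ℝ) : ℂ))) := by
  classical
  have h' : (2 : ℝ) ^ (132 * t) * (((1 : ℕ) : ℝ) + 1) ^ 2 ≤ (s : ℝ) ^ 2 := by
    have h1 : ((2 : ℝ) ^ (66 * t + 1)) ≤ s := by exact_mod_cast h
    calc (2 : ℝ) ^ (132 * t) * (((1 : ℕ) : ℝ) + 1) ^ 2 = ((2 : ℝ) ^ (66 * t + 1)) ^ 2 := by
          rw [← pow_mul, add_mul, pow_add, one_mul]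
          norm_num
          ring_nf
      _ ≤ (s : ℝ) ^ 2 := pow_le_pow_left₀ (by positivity) h1 2
  let V : Submodule ℚ ℝ := Submodule.span ℚ
    (Set.range fun j : odds s => ∑' n : ℕ, 1 / ((n : ℝ) + 1) ^ (j : ℕ))
  have hVfd : FiniteDimensional ℚ V := FiniteDimensional.span_of_finite ℚ (Set.finite_range _)
  let ψ : ℝ →ₗ[ℚ] ℂ := (Algebra.linearMap ℝ ℂ).restrictScalars ℚ
  have hψ : Function.Injective ψ := Complex.ofReal_injective
  have hmap : Submodule.span ℚ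
      (Set.range fun j : odds s => (((∑' n : ℕ, 1 / ((n : ℝ) + 1) ^ (j : ℕ)) : ℝ) : ℂ)) =
      V.map ψ := by
    rw [Submodule.map_span, ← Set.range_comp]
    rfl
  rw [hmap, ← LinearEquiv.finrank_eq (Submodule.equivMapOfInjective ψ hψ V)]
  by_contra hlt
  push Not at hlt
  obtain ⟨D, rfl⟩ : ∃ D, t = D + 1 := ⟨t - 1, by omega⟩
  have h1 := Pool.Agent.Y926.TW.window_space (b := 1) (K := 1) (D := D) (s := s) le_rfl (by
    have h2 : Real.log ((1 : ℕ) + 1) ≤ 1 := by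
      have h3 : ((1 : ℕ) : ℝ) + 1 = 2 := by norm_num
      rw [h3]
      linarith [Real.log_two_lt_d9]
    have h4 : (0 : ℝ) ≤ (2 : ℝ) ^ (132 * (D + 1)) * (((1 : ℕ) : ℝ) + 1) ^ 2 := by positivity
    calc (2 : ℝ) ^ (132 * (D + 1)) * (((1 : ℕ) : ℝ) + 1) ^ 2 * ((1 : ℕ) : ℝ) ^ 3 *
          Real.log ((1 : ℕ) + 1)
        = (2 : ℝ) ^ (132 * (D + 1)) * (((1 : ℕ) : ℝ) + 1) ^ 2 * Real.log ((1 : ℕ) + 1) := by
          push_cast
          ring
      _ ≤ (2 : ℝ) ^ (132 * (D + 1)) * (((1 : ℕ) : ℝ) + 1) ^ 2 * 1 :=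
          mul_le_mul_of_nonneg_left h2 h4
      _ ≤ (s : ℝ) ^ 2 := by
          rw [mul_one]
          exact h') V hVfd (by omega)
  have h5 : {j : ℕ | 1 < j ∧ j ≤ s ∧ Odd j ∧
      ∀ r : ℚ, (∑' n : ℕ, 1 / ((n : ℝ) + 1) ^ j) - r ∉ V} = ∅ := by
    rw [Set.eq_empty_iff_forall_notMem]
    rintro j ⟨hb, hs, hodd, hr⟩
    apply hr 0
    have hj : j ∈ odds s := Finset.mem_filter.2 ⟨Finset.mem_Ioc.2 ⟨hb, hs⟩, hodd⟩
    rw [Rat.cast_zero, sub_zero]
    exact Submodule.subset_span ⟨⟨j, hj⟩, rfl⟩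
  rw [h5, Set.ncard_empty] at h1
  omega

section gen

variable {J : Type} [Fintype J] (z : J → ℂ)

/-- the integral combination -/
noncomputable def comb (c : J → ℤ) : ℂ := ∑ j, (c j : ℂ) * z j

theorem comb_eq (c : J → ℤ) : comb z c = ∑ j, ((c j : ℤ) : ℚ) • z j := by
  rw [comb]
  refine Finset.sum_congr rfl fun j _ => ?_
  rw [Rat.smul_def]
  push_cast
  rfl

/-- the exceptional vectors -/
theorem vectors {x : ℂ} (hx : Transcendental ℚ x) (D t : ℕ)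
    (ht : t ≤ finrank ℚ (Submodule.span ℚ (Set.range z))) :
    ∃ HH : Set (AddSubgroup (J → ℤ)), HH.Finite ∧
      (∀ c : J → ℤ, Related ℚ D x (comb z c) ↔ ∃ H ∈ HH, c ∈ H) ∧
      ∀ H ∈ HH, ∀ (r : ℕ) (v : Fin r → (J → ℤ)), (∀ i, v i ∈ H) →
        LinearIndependent ℤ v → r + t ≤ Fintype.card J + 2 * D := by
  classical
  let V : Submodule ℚ ℂ := Submodule.span ℚ (Set.range z)
  have hVfd : FiniteDimensional ℚ V := FiniteDimensional.span_of_finite ℚ (Set.finite_range _)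
  obtain ⟨UU, hUf, hUU, hUd⟩ := structure_thm (k := ℚ) hx D V
  let E : (J → ℤ) →+ ℂ :=
    { toFun := comb z
      map_zero' := by simp [comb]
      map_add' := fun c d => by
        simp only [comb, Pi.add_apply, Int.cast_add, add_mul, Finset.sum_add_distrib] }
  have hEV : ∀ c, E c ∈ V := by
    intro c
    change comb z c ∈ V
    rw [comb_eq]
    exact Submodule.sum_mem _ fun j _ => V.smul_mem _ (Submodule.subset_span ⟨j, rfl⟩)
  refine ⟨(fun U : Submodule ℚ ℂ =>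
    (U ⊔ Submodule.span ℚ {1, x} : Submodule ℚ ℂ).toAddSubgroup.comap E) '' UU,
    hUf.image _, fun c => ?_, ?_⟩
  · rw [related_iff]
    constructor
    · intro hr
      obtain ⟨U, hU, hcU⟩ := (hUU _).1 ⟨hEV c, hr⟩
      exact ⟨_, ⟨U, hU, rfl⟩, Submodule.mem_sup_left (show E c ∈ U from hcU)⟩
    · rintro ⟨_, ⟨U, hU, rfl⟩, hcU⟩
      exact (hUd U hU).2.1 _ hcU
  · rintro _ ⟨U, hU, rfl⟩ r v hv hli
    obtain ⟨hfd, -, hdim⟩ := hUd U hU
    have h1 := rank_preimage z (U ⊔ Submodule.span ℚ {1, x}) v hli (fun i => by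
      have h2 : comb z (v i) ∈ (U ⊔ Submodule.span ℚ {1, x} : Submodule ℚ ℂ) := hv i
      rwa [comb_eq] at h2)
    omega

/-- the number of the exceptional vectors -/
theorem counting {x : ℂ} (hx : Transcendental ℚ x) (m D t : ℕ)
    (ht : t ≤ finrank ℚ (Submodule.span ℚ (Set.range z))) :
    ∃ C : ℕ, ∀ T : ℕ,
      {c : J → ℤ | (∀ j, |c j| ≤ T) ∧ RelatedOver m D x (comb z c)}.Finite ∧
      {c : J → ℤ | (∀ j, |c j| ≤ T) ∧ RelatedOver m D x (comb z c)}.ncard ≤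
        C * (2 * T + 1) ^ (Fintype.card J + 2 * (m * D) - t) := by
  classical
  obtain ⟨HH, hHf, hHH, hHr⟩ := vectors z hx (m * D) t ht
  have hrel : ∀ c : J → ℤ, RelatedOver m D x (comb z c) → ∃ H ∈ HH, c ∈ H := by
    rintro c ⟨F, hF, hFm, P, hP0, hPd, hP⟩
    obtain ⟨g, hg0, hgd, hg⟩ := exists_rat_relation F _ P hP0 hP
    exact (hHH c).1 ⟨g, hg0, hgd.trans (Nat.mul_le_mul hFm hPd), hg⟩
  refine ⟨hHf.toFinset.card, fun T => ?_⟩
  have hR : ∀ H ∈ HH, ∀ (r : ℕ) (v : Fin r → (J → ℤ)), (∀ i, v i ∈ H) →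
      LinearIndependent ℤ v → r ≤ Fintype.card J + 2 * (m * D) - t := by
    intro H hH r v hv hli
    have := hHr H hH r v hv hli
    omega
  have hsub : {c : J → ℤ | (∀ j, |c j| ≤ T) ∧ RelatedOver m D x (comb z c)} ⊆
      ⋃ H ∈ hHf.toFinset, {c : J → ℤ | c ∈ H ∧ ∀ j, |c j| ≤ T} := by
    rintro c ⟨hc, hr⟩
    obtain ⟨H, hH, hcH⟩ := hrel c hr
    simp only [Set.mem_iUnion]
    exact ⟨H, hHf.mem_toFinset.2 hH, hcH, hc⟩
  have hfin : (⋃ H ∈ hHf.toFinset, {c : J → ℤ | c ∈ H ∧ ∀ j, |c j| ≤ T}).Finite :=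
    hHf.toFinset.finite_toSet.biUnion fun H hH =>
      (count_box H _ (hR H (hHf.mem_toFinset.1 hH)) T).1
  refine ⟨hfin.subset hsub, (Set.ncard_le_ncard hsub hfin).trans ?_⟩
  refine (Finset.set_ncard_biUnion_le _ _).trans ?_
  rw [← smul_eq_mul]
  exact Finset.sum_le_card_nsmul _ _ _ fun H hH =>
    (count_box H _ (hR H (hHf.mem_toFinset.1 hH)) T).2

end gen

end Pool.Agent.Q146.MZ
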